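import Mathlib

/-!
# Bilinear algorithms for matrix multiplication with few different left forms
-/

set_option autoImplicit false

namespace Pool.Agent.T9h18.Forms

open Finset Module

/-- `u`, `v`, `w` are the coefficients of a bilinear algorithm with `r` multiplications for the
product of an `a × b` matrix and a `b × c` matrix: the tensor of this multiplication is the sum of
the `r` rank-one tensors `u t ⊗ v t ⊗ w t`. -/
def IsAlgo {F : Type*} [Field F] {r a b c : ℕ} (u : Fin r → Fin a → Fin b → F)
    (v : Fin r → Fin b → Fin c → F) (w : Fin r → Fin c → Fin a → F) : Prop :=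
  ∀ i j j' k k' i', ∑ t, u t i j * v t j' k * w t k' i' =
    if j = j' ∧ k = k' ∧ i' = i then 1 else 0

/-- The forms `u t` are scalar multiples of at most `p` different forms. -/
def AtMostForms {F : Type*} [Field F] {r a b : ℕ} (u : Fin r → Fin a → Fin b → F) (p : ℕ) : Prop :=
  ∃ e : Fin p → Fin a → Fin b → F, ∀ t, ∃ (s : Fin p) (x : F), u t = x • e s

section core

variable {F : Type*} [Field F] {r a b c p : ℕ}

/-- Products needed on a subspace `C` of left matrices on which only the products in `R` matter. -/
lemma rank_bound {u : Fin r → Fin a → Fin b → F}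
    {v : Fin r → Fin b → Fin c → F} {w : Fin r → Fin c → Fin a → F} (H : IsAlgo u v w)
    (C : Submodule F (Fin a × Fin b → F)) (R : Finset (Fin r))
    (hR : ∀ A ∈ C, ∀ t, t ∉ R → ∑ y : Fin a × Fin b, u t y.1 y.2 * A y = 0) (j : Fin b) :
    finrank F (C.map (LinearMap.funLeft F F fun i : Fin a => (i, j))) * c ≤ R.card := by
  classical
  set D := C.map (LinearMap.funLeft F F fun i : Fin a => (i, j)) with hD
  set m := finrank F D with hm
  let d := Module.finBasis F D
  have hlift : ∀ α, ∃ A ∈ C, ∀ i, A (i, j) = (d α : Fin a → F) i := by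
    intro α
    obtain ⟨A, hA, hA2⟩ := Submodule.mem_map.mp (d α).2
    exact ⟨A, hA, fun i => congrFun hA2 i⟩
  choose A hAC hA using hlift
  let q : Fin m × Fin c → (Fin a × Fin c → F) := fun x y => if x.2 = y.2 then A x.1 (y.1, j) else 0
  let w' : Fin r → (Fin a × Fin c → F) := fun t y => w t y.2 y.1
  have hq : LinearIndependent F q := by
    rw [Fintype.linearIndependent_iff]
    rintro g hg ⟨α, k⟩
    have h1 : ∑ α, g (α, k) • (d α : Fin a → F) = 0 := by
      funext i
      have h2 := congrFun hg (i, k)
      rw [Fintype.sum_prod_type] at h2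
      simp only [Finset.sum_apply, Pi.smul_apply, smul_eq_mul, q, mul_ite, mul_zero, Pi.zero_apply,
        Finset.sum_ite_eq', Finset.mem_univ, if_true] at h2
      simp only [Finset.sum_apply, Pi.smul_apply, smul_eq_mul, Pi.zero_apply]
      rw [← h2]
      exact Finset.sum_congr rfl fun α _ => by rw [hA]
    have h3 : ∑ α, g (α, k) • d α = 0 := by
      apply Subtype.ext
      rw [Submodule.coe_sum]
      simpa using h1
    exact Fintype.linearIndependent_iff.mp d.linearIndependent (fun α => g (α, k)) h3 α
  have hmem : ∀ x, q x ∈ Submodule.span F ((R.image w' : Finset _) : Set (Fin a × Fin c → F)) := by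
    rintro ⟨α, k⟩
    have h1 : q (α, k) = ∑ t ∈ R, ((∑ y : Fin a × Fin b, u t y.1 y.2 * A α y) * v t j k) • w' t := by
      have h2 : q (α, k) = ∑ t, ((∑ y : Fin a × Fin b, u t y.1 y.2 * A α y) * v t j k) • w' t := by
        funext y
        simp only [q, w', Finset.sum_apply, Pi.smul_apply, smul_eq_mul, Finset.sum_mul]
        rw [Finset.sum_comm]
        have h3 : ∀ x : Fin a × Fin b, (∑ t, u t x.1 x.2 * A α x * v t j k * w t y.2 y.1) =
            A α x * if x.2 = j ∧ k = y.2 ∧ y.1 = x.1 then 1 else 0 := by
          intro x
          rw [← H x.1 x.2 j k y.2 y.1, Finset.mul_sum]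
          exact Finset.sum_congr rfl fun t _ => by ring
        rw [Finset.sum_congr rfl fun x _ => h3 x, Fintype.sum_eq_single (y.1, j)]
        · simp
        · rintro ⟨x1, x2⟩ hne
          rw [if_neg, mul_zero]
          rintro ⟨h4, -, h5⟩
          exact hne (Prod.ext h5.symm h4)
      rw [h2]
      symm
      refine Finset.sum_subset (Finset.subset_univ R) fun t _ ht => ?_
      rw [hR _ (hAC α) t ht, zero_mul, zero_smul]
    rw [h1]
    refine Submodule.sum_mem _ fun t ht => Submodule.smul_mem _ _ (Submodule.subset_span ?_)
    exact Finset.mem_coe.mpr (Finset.mem_image_of_mem _ ht)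
  have h5 : Submodule.span F (Set.range q) ≤
      Submodule.span F ((R.image w' : Finset _) : Set (Fin a × Fin c → F)) :=
    Submodule.span_le.mpr (by rintro _ ⟨x, rfl⟩; exact hmem x)
  have h6 := Submodule.finrank_mono h5
  rw [finrank_span_eq_card hq] at h6
  have h7 := finrank_span_finset_le_card (R := F) (R.image w')
  have h8 : Fintype.card (Fin m × Fin c) = m * c := by simp
  rw [h8] at h6
  exact h6.trans (h7.trans Finset.card_image_le)

/-- A generalised Laplace expansion: the rows of an invertible matrix can be distributed over the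
blocks of a partition of the columns. -/
lemma laplace {X Γ : Type*} [Fintype X] [DecidableEq X] [Fintype Γ] [DecidableEq Γ]
    (E : Matrix X X F) (hE : E.det ≠ 0) (gr : X → Γ) :
    ∃ l : X → Γ, LinearIndependent F (fun x y => if gr y = l x then E x y else 0) := by
  have h1 : E.det = ∑ l : X → Γ, Matrix.det (fun x y => if gr y = l x then E x y else 0) := by
    have h2 := (Matrix.detRowAlternating (n := X) (R := F)).toMultilinearMap.map_sum
      (fun (x : X) (γ : Γ) (y : X) => if gr y = γ then E x y else 0)
    have h3 : (fun x => ∑ γ : Γ, fun y => if gr y = γ then E x y else 0) = fun x => E x := by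
      funext x y
      simp [Finset.sum_apply]
    rw [h3] at h2
    exact h2
  rw [h1] at hE
  obtain ⟨l, -, hl⟩ := Finset.exists_ne_zero_of_sum_ne_zero hE
  refine ⟨l, ?_⟩
  have h4 : IsUnit (Matrix.det (fun x y => if gr y = l x then E x y else 0 : Matrix X X F)) :=
    isUnit_iff_ne_zero.mpr hl
  have h5 := (Matrix.isUnit_iff_isUnit_det _).mpr h4
  exact Matrix.linearIndependent_rows_iff_isUnit.mpr h5

lemma card_eq {X Γ : Type*} [Fintype X] [DecidableEq X] [Fintype Γ] [DecidableEq Γ]
    (E : Matrix X X F) (gr l : X → Γ)
    (h : LinearIndependent F (fun x y => if gr y = l x then E x y else 0)) (γ : Γ) :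
    (univ.filter fun x => l x = γ).card = (univ.filter fun y => gr y = γ).card := by
  have hle : ∀ γ ∈ (univ : Finset Γ), (univ.filter fun x => l x = γ).card ≤
      (univ.filter fun y => gr y = γ).card := by
    intro γ _
    let f : {x // l x = γ} → ({y // gr y = γ} → F) := fun x y => E x.1 y.1
    have hf : LinearIndependent F f := by
      rw [Fintype.linearIndependent_iff]
      intro g hg
      have h1 := Fintype.linearIndependent_iff.mp h (fun x => if hx : l x = γ then g ⟨x, hx⟩ else 0)
        (by
          funext y
          rw [Finset.sum_apply]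
          by_cases hy : gr y = γ
          · have h2 := congrFun hg ⟨y, hy⟩
            rw [Finset.sum_apply] at h2
            simp only [Pi.smul_apply, smul_eq_mul, f, Pi.zero_apply] at h2
            simp only [Pi.smul_apply, smul_eq_mul, Pi.zero_apply]
            refine Eq.trans ?_ h2
            rw [← Fintype.sum_subtype_add_sum_subtype (fun x => l x = γ)]
            have h3 : ∑ i : {x // ¬ l x = γ}, (if hx : l i.1 = γ then g ⟨i.1, hx⟩ else 0) *
                (if gr y = l i.1 then E i.1 y else 0) = 0 := by
              refine Finset.sum_eq_zero fun x _ => ?_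
              rw [dif_neg x.2, zero_mul]
            rw [h3, add_zero]
            refine Finset.sum_congr rfl fun x _ => ?_
            rw [dif_pos x.2, if_pos (by rw [x.2, hy])]
          · refine Finset.sum_eq_zero fun x _ => ?_
            simp only [Pi.smul_apply, smul_eq_mul]
            by_cases hx : l x = γ
            · rw [if_neg (by rw [hx]; exact hy), mul_zero]
            · rw [dif_neg hx, zero_mul])
      intro x
      have := h1 x.1
      rwa [dif_pos x.2] at this
    have := hf.fintype_card_le_finrank
    rw [Module.finrank_fintype_fun_eq_card, Fintype.card_subtype, Fintype.card_subtype] at this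
    exact this
  have hsum : ∑ γ : Γ, (univ.filter fun x => l x = γ).card =
      ∑ γ : Γ, (univ.filter fun y => gr y = γ).card := by
    rw [← Finset.card_eq_sum_card_fiberwise (f := l) (s := univ) (t := univ) (by simp),
      ← Finset.card_eq_sum_card_fiberwise (f := gr) (s := univ) (t := univ) (by simp)]
  exact (Finset.sum_eq_sum_iff_of_le hle).mp hsum γ (mem_univ _)

end core

end Pool.Agent.T9h18.Forms
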