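import Pool.Agent.T9h18.Forms.Core

/-!
# Bilinear algorithms with few different left forms: the bounds
-/

set_option autoImplicit false

namespace Pool.Agent.T9h18.Forms

open Finset Module

section

variable {F : Type*} [Field F] {r a b c p : ℕ}

/-- The left forms span the dual space. -/
lemma span_forms {u : Fin r → Fin a → Fin b → F} {v : Fin r → Fin b → Fin c → F}
    {w : Fin r → Fin c → Fin a → F} (H : IsAlgo u v w) (hc : 0 < c)
    (e : Fin p → Fin a × Fin b → F) (φ : Fin r → Fin p) (s : Fin r → F)
    (hu : ∀ t i j, u t i j = s t * e (φ t) (i, j)) :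
    Submodule.span F (Set.range e) = ⊤ := by
  classical
  rw [eq_top_iff, ← (Pi.basisFun F (Fin a × Fin b)).span_eq, Submodule.span_le]
  rintro _ ⟨⟨i, j⟩, rfl⟩
  have h1 : (Pi.basisFun F (Fin a × Fin b)) (i, j) =
      ∑ t, (v t j ⟨0, hc⟩ * w t ⟨0, hc⟩ i * s t) • e (φ t) := by
    funext x
    rw [Pi.basisFun_apply, Finset.sum_apply]
    have h2 := H x.1 x.2 j ⟨0, hc⟩ ⟨0, hc⟩ i
    have h3 : (∑ t, ((v t j ⟨0, hc⟩ * w t ⟨0, hc⟩ i * s t) • e (φ t)) x) =
        ∑ t, u t x.1 x.2 * v t j ⟨0, hc⟩ * w t ⟨0, hc⟩ i := by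
      refine Finset.sum_congr rfl fun t _ => ?_
      rw [Pi.smul_apply, smul_eq_mul, hu]
      ring
    rw [h3, h2, Pi.single_apply]
    by_cases hx : x = (i, j)
    · rw [if_pos hx, if_pos ⟨by rw [hx], rfl, by rw [hx]⟩]
    · rw [if_neg hx, if_neg]
      rintro ⟨h4, -, h5⟩
      exact hx (Prod.ext h5.symm h4)
  rw [h1]
  exact Submodule.sum_mem _ fun t _ => Submodule.smul_mem _ _ (Submodule.subset_span ⟨_, rfl⟩)

/-- The bound for a partition of the columns. -/
theorem group_bound {u : Fin r → Fin a → Fin b → F} {v : Fin r → Fin b → Fin c → F}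
    {w : Fin r → Fin c → Fin a → F} (H : IsAlgo u v w) (hc : 0 < c)
    (e : Fin p → Fin a × Fin b → F) (φ : Fin r → Fin p) (s : Fin r → F)
    (hu : ∀ t i j, u t i j = s t * e (φ t) (i, j))
    {Γ : Type*} [Fintype Γ] [DecidableEq Γ] (gr : Fin b → Γ) :
    ∃ n : Γ → ℕ, ∑ γ, n γ ≤ r ∧ ∀ γ, c * (a * (univ.filter fun j => gr j = γ).card - (p - a * b)) ≤
      (univ.filter fun j => gr j = γ).card * n γ := by
  classical
  obtain ⟨κ, ι₀, hinj, hspan, hli⟩ := exists_linearIndependent' F e
  rw [span_forms H hc e φ s hu] at hspan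
  let B := Basis.mk hli (by rw [hspan])
  let eq : κ ≃ Fin a × Fin b := B.indexEquiv (Pi.basisFun F (Fin a × Fin b))
  set ι : Fin a × Fin b → Fin p := fun x => ι₀ (eq.symm x) with hι
  have hιinj : Function.Injective ι := hinj.comp eq.symm.injective
  have hιli : LinearIndependent F fun x => e (ι x) := hli.comp _ eq.symm.injective
  set G : Matrix (Fin a × Fin b) (Fin a × Fin b) F := fun x => e (ι x) with hG
  have hGu : IsUnit G := Matrix.linearIndependent_rows_iff_isUnit.mp hιli
  have hGd : IsUnit G.det := (Matrix.isUnit_iff_isUnit_det _).mp hGu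
  set E : Matrix (Fin a × Fin b) (Fin a × Fin b) F := G⁻¹.transpose with hE
  have hEd : E.det ≠ 0 := by
    rw [hE, Matrix.det_transpose, Matrix.det_nonsing_inv]
    exact (isUnit_iff_ne_zero.mp (hGd.ringInverse))
  obtain ⟨l, hl⟩ := laplace E hEd (fun y => gr y.2)
  have hcard := card_eq E (fun y => gr y.2) l hl
  set T : Γ → Finset (Fin a × Fin b) := fun γ => univ.filter fun x => l x = γ with hT
  have hTcard : ∀ γ, (T γ).card = a * (univ.filter fun j => gr j = γ).card := by
    intro γ
    rw [hT]
    simp only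
    rw [hcard γ]
    have : (univ.filter fun y : Fin a × Fin b => gr y.2 = γ) =
        univ ×ˢ (univ.filter fun j => gr j = γ) := by
      ext y; simp
    rw [this, card_product, card_univ, Fintype.card_fin]
  set R : Γ → Finset (Fin r) := fun γ => univ.filter fun t => φ t ∈ (T γ).image ι with hR
  refine ⟨fun γ => (R γ).card, ?_, fun γ => ?_⟩
  · -- the sets `R γ` are disjoint
    have hdisj : ((univ : Finset Γ) : Set Γ).PairwiseDisjoint R := by
      intro γ _ γ' _ hne
      rw [Function.onFun, Finset.disjoint_left]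
      intro t ht ht'
      rw [hR] at ht ht'
      simp only [mem_filter, mem_univ, true_and, mem_image] at ht ht'
      obtain ⟨x, hx, hxt⟩ := ht
      obtain ⟨x', hx', hxt'⟩ := ht'
      have : x = x' := hιinj (hxt.trans hxt'.symm)
      subst this
      rw [hT] at hx hx'
      simp only [mem_filter, mem_univ, true_and] at hx hx'
      exact hne (hx.symm.trans hx')
    rw [← Finset.card_biUnion (fun γ hγ γ' hγ' hne => hdisj hγ hγ' hne)]
    refine (card_le_univ _).trans (le_of_eq (Fintype.card_fin r))
  · -- the space of matrices on which only the forms in `T γ` matter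
    let L : (Fin a × Fin b → F) →ₗ[F] ({s : Fin p // s ∉ (T γ).image ι} → F) :=
      LinearMap.pi fun s => ∑ y, e s.1 y • LinearMap.proj (R := F) (φ := fun _ => F) y
    have hL : ∀ A s, L A s = ∑ y, e s.1 y * A y := by
      intro A s
      simp [L, LinearMap.sum_apply]
    set C := LinearMap.ker L with hC
    have hCmem : ∀ A ∈ C, ∀ s, s ∉ (T γ).image ι → ∑ y, e s y * A y = 0 := by
      intro A hA s hs
      have := congrFun (LinearMap.mem_ker.mp hA) ⟨s, hs⟩
      rwa [hL] at this
    have hCdim : (T γ).card - (p - a * b) ≤ finrank F C := by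
      have h1 := L.finrank_range_add_finrank_ker
      have h2 : finrank F (LinearMap.range L) ≤ p - (T γ).card := by
        have h3 := Submodule.finrank_le (LinearMap.range L)
        rw [Module.finrank_fintype_fun_eq_card] at h3
        have h4 : Fintype.card {s : Fin p // s ∉ (T γ).image ι} = p - (T γ).card := by
          rw [Fintype.card_subtype_compl, Fintype.card_fin, Fintype.card_coe,
            Finset.card_image_of_injective _ hιinj]
        rwa [h4] at h3
      have h5 : finrank F (Fin a × Fin b → F) = a * b := by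
        rw [Module.finrank_fintype_fun_eq_card]; simp
      rw [h5] at h1
      have h6 : (T γ).card ≤ a * b := by
        have := card_le_univ (T γ)
        simpa using this
      have h7 : a * b ≤ p := by
        have := Fintype.card_le_of_injective ι hιinj
        simpa using this
      have h8 : finrank F C = finrank F (LinearMap.ker L) := rfl
      omega
    -- reconstruction
    have hrec : ∀ A : Fin a × Fin b → F, A = ∑ x, (∑ y, e (ι x) y * A y) • E x := by
      intro A
      have h1 : G⁻¹.mulVec (G.mulVec A) = A := by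
        rw [Matrix.mulVec_mulVec, Matrix.nonsing_inv_mul G hGd, Matrix.one_mulVec]
      conv_lhs => rw [← h1]
      funext y
      rw [Matrix.mulVec, dotProduct, Finset.sum_apply]
      refine Finset.sum_congr rfl fun x _ => ?_
      rw [Pi.smul_apply, smul_eq_mul, mul_comm]
      rfl
    have hzero : ∀ A ∈ C, (∀ i j, gr j = γ → A (i, j) = 0) → A = 0 := by
      intro A hA h0
      set α : Fin a × Fin b → F := fun x => ∑ y, e (ι x) y * A y with hα
      have hα0 : ∀ x, x ∉ T γ → α x = 0 := by
        intro x hx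
        refine hCmem A hA (ι x) fun hmem => ?_
        obtain ⟨x', hx', hxx'⟩ := mem_image.mp hmem
        exact hx (hιinj hxx' ▸ hx')
      have h2 : ∑ x, α x • (fun y => if gr y.2 = l x then E x y else 0 : Fin a × Fin b → F) = 0 := by
        funext y
        rw [Finset.sum_apply, Pi.zero_apply]
        by_cases hy : gr y.2 = γ
        · have h3 := congrFun (hrec A) y
          rw [h0 y.1 y.2 hy, Finset.sum_apply] at h3
          refine Eq.trans ?_ h3.symm
          refine Finset.sum_congr rfl fun x _ => ?_
          rw [Pi.smul_apply, Pi.smul_apply, smul_eq_mul, smul_eq_mul]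
          by_cases hx : x ∈ T γ
          · have : l x = γ := (mem_filter.mp hx).2
            rw [if_pos (by rw [this, hy])]
          · have := hα0 x hx
            rw [this, zero_mul]
            have h4 : (∑ y, e (ι x) y * A y) = 0 := this
            rw [h4, zero_mul]
        · refine Finset.sum_eq_zero fun x _ => ?_
          rw [Pi.smul_apply, smul_eq_mul]
          by_cases hx : x ∈ T γ
          · have : l x = γ := (mem_filter.mp hx).2
            rw [if_neg (by rw [this]; exact hy), mul_zero]
          · rw [hα0 x hx, zero_mul]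
      have h5 := Fintype.linearIndependent_iff.mp hl α h2
      rw [hrec A]
      refine Finset.sum_eq_zero fun x _ => ?_
      have h6 : (∑ y, e (ι x) y * A y) = 0 := h5 x
      rw [h6, zero_smul]
    -- the columns in the block `γ` together determine the matrices in `C`
    let D : {j // gr j = γ} → Submodule F (Fin a → F) := fun j =>
      C.map (LinearMap.funLeft F F fun i : Fin a => (i, j.1))
    let J : C →ₗ[F] (∀ j : {j // gr j = γ}, D j) := LinearMap.pi fun j =>
      ((LinearMap.funLeft F F fun i : Fin a => (i, j.1)).comp C.subtype).codRestrict (D j)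
        fun A => Submodule.mem_map_of_mem A.2
    have hJ : Function.Injective J := by
      rw [← LinearMap.ker_eq_bot, LinearMap.ker_eq_bot']
      intro A hA
      apply Subtype.ext
      refine hzero A.1 A.2 fun i j hj => ?_
      have h1 := congrArg Subtype.val (congrFun hA ⟨j, hj⟩)
      exact congrFun h1 i
    have hJ2 : finrank F C ≤ ∑ j : {j // gr j = γ}, finrank F (D j) := by
      have := LinearMap.finrank_le_finrank_of_injective hJ
      rwa [Module.finrank_pi_fintype] at this
    have hDj : ∀ j : {j // gr j = γ}, finrank F (D j) * c ≤ (R γ).card := by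
      intro j
      refine rank_bound H C (R γ) (fun A hA t ht => ?_) j.1
      have h1 : φ t ∉ (T γ).image ι := fun h => ht (mem_filter.mpr ⟨mem_univ _, h⟩)
      have h2 := hCmem A hA (φ t) h1
      have h3 : ∑ y : Fin a × Fin b, u t y.1 y.2 * A y = s t * ∑ y, e (φ t) y * A y := by
        rw [Finset.mul_sum]
        refine Finset.sum_congr rfl fun y _ => ?_
        rw [hu]
        ring
      rw [h3, h2, mul_zero]
    calc c * (a * (univ.filter fun j => gr j = γ).card - (p - a * b))
        = c * ((T γ).card - (p - a * b)) := by rw [hTcard]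
      _ ≤ c * finrank F C := Nat.mul_le_mul_left _ hCdim
      _ ≤ c * ∑ j : {j // gr j = γ}, finrank F (D j) := Nat.mul_le_mul_left _ hJ2
      _ = ∑ j : {j // gr j = γ}, finrank F (D j) * c := by
          rw [Finset.mul_sum]
          exact Finset.sum_congr rfl fun j _ => mul_comm _ _
      _ ≤ ∑ _j : {j // gr j = γ}, (R γ).card := Finset.sum_le_sum fun j _ => hDj j
      _ = (univ.filter fun j => gr j = γ).card * (R γ).card := by
          rw [Finset.sum_const, card_univ, Fintype.card_subtype, smul_eq_mul]

/-- **Main bound.** -/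
theorem main_bound {u : Fin r → Fin a → Fin b → F} {v : Fin r → Fin b → Fin c → F}
    {w : Fin r → Fin c → Fin a → F} (H : IsAlgo u v w) (hp : AtMostForms u p) (k : ℕ) :
    b / k * (c * (a * k - (p - a * b))) ≤ k * r := by
  classical
  rcases Nat.eq_zero_or_pos c with hc | hc
  · subst hc; simp
  rcases Nat.eq_zero_or_pos k with hk | hk
  · subst hk; simp
  obtain ⟨e, he⟩ := hp
  choose φ s hs using he
  obtain ⟨n, hn, hb⟩ := group_bound H hc (fun q x => e q x.1 x.2) φ s (fun t i j => by
    rw [hs]; rfl) (Γ := Fin (b / k + 1)) (fun j => ⟨j.1 / k, by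
      have := Nat.div_le_div_right (c := k) j.2.le
      omega⟩)
  have hcard : ∀ l : Fin (b / k), (univ.filter fun j : Fin b =>
      (⟨j.1 / k, by
        have := Nat.div_le_div_right (c := k) j.2.le
        omega⟩ : Fin (b / k + 1)) = l.castSucc).card = k := by
    intro l
    have hl : (l.1 + 1) * k ≤ b := by
      have h1 : l.1 + 1 ≤ b / k := l.2
      exact (Nat.mul_le_mul_right k h1).trans (Nat.div_mul_le_self b k)
    have hlt : ∀ x : Fin k, l.1 * k + x.1 < b := by
      intro x
      have := x.2
      calc l.1 * k + x.1 < l.1 * k + k := by omega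
        _ = (l.1 + 1) * k := by ring
        _ ≤ b := hl
    have h2 : (univ : Finset (Fin k)).card = (univ.filter fun j : Fin b =>
      (⟨j.1 / k, by
        have := Nat.div_le_div_right (c := k) j.2.le
        omega⟩ : Fin (b / k + 1)) = l.castSucc).card := by
      refine Finset.card_bij (fun x _ => (⟨l.1 * k + x.1, hlt x⟩ : Fin b)) ?_ ?_ ?_
      · intro x _
        rw [mem_filter]
        refine ⟨mem_univ _, Fin.ext ?_⟩
        show (l.1 * k + x.1) / k = l.1
        rw [mul_comm, Nat.mul_add_div hk, Nat.div_eq_of_lt x.2, add_zero]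
      · intro x _ y _ hxy
        have h3 : l.1 * k + x.1 = l.1 * k + y.1 := congrArg Fin.val hxy
        exact Fin.ext (by omega)
      · intro j hj
        have h3 : j.1 / k = l.1 := congrArg Fin.val (mem_filter.mp hj).2
        refine ⟨⟨j.1 % k, Nat.mod_lt _ hk⟩, mem_univ _, Fin.ext ?_⟩
        show l.1 * k + j.1 % k = j.1
        rw [← h3]
        exact Nat.div_add_mod' j.1 k
    rw [← h2, card_univ, Fintype.card_fin]
  have h4 : ∑ l : Fin (b / k), n l.castSucc ≤ r := by
    refine le_trans ?_ hn
    rw [Fin.sum_univ_castSucc]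
    exact Nat.le_add_right _ _
  calc b / k * (c * (a * k - (p - a * b))) = ∑ _l : Fin (b / k), c * (a * k - (p - a * b)) := by
        rw [Finset.sum_const, card_univ, Fintype.card_fin, smul_eq_mul]
    _ ≤ ∑ l : Fin (b / k), k * n l.castSucc := Finset.sum_le_sum fun l _ => by
        have := hb l.castSucc
        rwa [hcard l] at this
    _ = k * ∑ l : Fin (b / k), n l.castSucc := by rw [Finset.mul_sum]
    _ ≤ k * r := Nat.mul_le_mul_left _ h4

end

end Pool.Agent.T9h18.Forms

namespace Pool.Agent.T9h18.Forms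

open Finset Module

variable {F : Type*} [Field F]

/-- There are at least as many products as entries of the left matrix. -/
lemma card_le {r a b c : ℕ} {u : Fin r → Fin a → Fin b → F} {v : Fin r → Fin b → Fin c → F}
    {w : Fin r → Fin c → Fin a → F} (H : IsAlgo u v w) (hc : 0 < c) : a * b ≤ r := by
  have h := span_forms H hc (fun t x => u t x.1 x.2) (fun t => t) (fun _ => 1) (fun t i j => by
    rw [one_mul])
  have h1 := finrank_range_le_card (R := F) (fun (t : Fin r) (x : Fin a × Fin b) => u t x.1 x.2)
  rw [Set.finrank, h, finrank_top, Module.finrank_fintype_fun_eq_card, Fintype.card_prod,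
    Fintype.card_fin, Fintype.card_fin, Fintype.card_fin] at h1
  exact h1

/-- rotation of an algorithm -/
lemma IsAlgo.rot {r a b c : ℕ} {u : Fin r → Fin a → Fin b → F} {v : Fin r → Fin b → Fin c → F}
    {w : Fin r → Fin c → Fin a → F} (H : IsAlgo u v w) : IsAlgo v w u := by
  intro i j j' k k' i'
  have h := H k i' i j j' k'
  have e1 : (∑ t, v t i j * w t j' k * u t k' i') = ∑ t, u t k' i' * v t i j * w t j' k :=
    Finset.sum_congr rfl fun t _ => by ring
  rw [e1, H k' i' i j j' k]
  by_cases hc : j = j' ∧ k = k' ∧ i' = i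
  · rw [if_pos hc, if_pos ⟨hc.2.2, hc.1, hc.2.1⟩]
  · rw [if_neg hc, if_neg (fun h' => hc ⟨h'.2.1, h'.2.2, h'.1⟩)]

/-- Square matrices. -/
theorem square_bound {r n p : ℕ} {u v w : Fin r → Fin n → Fin n → F} (H : IsAlgo u v w)
    (hp : AtMostForms u p) : n ^ 4 ≤ (8 * (p - n ^ 2) + 4 * n) * r := by
  rcases Nat.eq_zero_or_pos n with hn | hn
  · subst hn; simp
  set d := p - n ^ 2 with hd
  set k := 2 * d / n + 1 with hk
  have hnk1 : 2 * d < n * k := by
    rw [hk]
    exact Nat.lt_mul_div_succ _ hn
  have hnk2 : n * k ≤ 2 * d + n := by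
    rw [hk, mul_add, mul_one]
    exact Nat.add_le_add_right (Nat.mul_div_le _ _) _
  rcases Nat.lt_or_ge n k with hkn | hkn
  · have h1 : n ^ 2 ≤ 2 * d := by
      have h2 : n ≤ 2 * d / n := Nat.lt_succ_iff.mp hkn
      calc n ^ 2 = n * n := pow_two n
        _ ≤ n * (2 * d / n) := Nat.mul_le_mul_left _ h2
        _ ≤ 2 * d := Nat.mul_div_le _ _
    have h3 : n * n ≤ r := card_le H hn
    calc n ^ 4 = n ^ 2 * (n * n) := by ring
      _ ≤ (2 * d) * r := Nat.mul_le_mul h1 h3
      _ ≤ (8 * d + 4 * n) * r := Nat.mul_le_mul_right _ (by omega)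
  · have h1 := main_bound H hp k
    have hk0 : 0 < k := Nat.succ_pos _
    have hpn : p - n * n = d := by rw [hd, pow_two]
    rw [hpn] at h1
    have h2 : n ≤ 2 * k * (n / k) := by
      have h3 : n < k * (n / k + 1) := Nat.lt_mul_div_succ n hk0
      have h4 : 1 ≤ n / k := (Nat.one_le_div_iff hk0).mpr hkn
      have h5 : k * (n / k + 1) ≤ 2 * k * (n / k) := by nlinarith
      omega
    have h3 : n * k ≤ 2 * (n * k - d) := by omega
    have h4 : (n * n * (n * k)) ≤ 4 * k * (k * r) := by
      calc n * n * (n * k) = n * (n * (n * k)) := by ring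
        _ ≤ (2 * k * (n / k)) * (n * (2 * (n * k - d))) :=
            Nat.mul_le_mul h2 (Nat.mul_le_mul_left _ h3)
        _ = 4 * k * (n / k * (n * (n * k - d))) := by ring
        _ ≤ 4 * k * (k * r) := Nat.mul_le_mul_left _ h1
    have h5 : k * (n ^ 3) ≤ k * (4 * k * r) := by
      calc k * n ^ 3 = n * n * (n * k) := by ring
        _ ≤ 4 * k * (k * r) := h4
        _ = k * (4 * k * r) := by ring
    have h6 : n ^ 3 ≤ 4 * k * r := Nat.le_of_mul_le_mul_left h5 hk0
    calc n ^ 4 = n * n ^ 3 := by ring
      _ ≤ n * (4 * k * r) := Nat.mul_le_mul_left _ h6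
      _ = 4 * (n * k) * r := by ring
      _ ≤ 4 * (2 * d + n) * r := Nat.mul_le_mul_right _ (Nat.mul_le_mul_left _ hnk2)
      _ = (8 * d + 4 * n) * r := by ring

theorem square_bound' {r n p : ℕ} {u v w : Fin r → Fin n → Fin n → F} (H : IsAlgo u v w)
    (hp : AtMostForms u p ∨ AtMostForms v p ∨ AtMostForms w p) :
    n ^ 4 ≤ (8 * (p - n ^ 2) + 4 * n) * r ∧
      (8 * r ≤ n ^ 3 → n ^ 4 ≤ 16 * ((p - n ^ 2) * r)) := by
  have h : n ^ 4 ≤ (8 * (p - n ^ 2) + 4 * n) * r := by
    rcases hp with h | h | h
    · exact square_bound H h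
    · exact square_bound H.rot h
    · exact square_bound H.rot.rot h
  refine ⟨h, fun h8 => ?_⟩
  have h1 : n * (8 * r) ≤ n * n ^ 3 := Nat.mul_le_mul_left _ h8
  have h2 : n * n ^ 3 = n ^ 4 := by ring
  nlinarith

end Pool.Agent.T9h18.Forms
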